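import Pool.Agent.H.MP_05b6ce_an.B

set_option autoImplicit false
open Filter Topology Finset ComplexConjugate

namespace Pool.Agent.H.MP_05b6ce_an

abbrev E := WithLp 2 (ℂ × ℂ)
noncomputable abbrev K := lp (fun _ : ℕ => E) 2

lemma mem2 {F : Type} [NormedAddCommGroup F] (u : ℕ → F) :
    Memℓp u 2 ↔ Summable fun n => ‖u n‖ ^ 2 := by
  rw [memℓp_gen_iff (by norm_num)]; simp

lemma n2 {F : Type} [NormedAddCommGroup F] (x : lp (fun _ : ℕ => F) 2) :
    HasSum (fun n => ‖x n‖ ^ 2) (‖x‖ ^ 2) := by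
  simpa using lp.hasSum_norm (p := 2) (by norm_num) x

def shf (x : ℕ → E) : ℕ → E
  | 0 => 0
  | n + 1 => x n

noncomputable def S0 (x : K) : K :=
  ⟨shf x, (mem2 _).2 ((summable_nat_add_iff 1).1 (n2 x).summable)⟩

noncomputable def S : K →ₗᵢ[ℂ] K where
  toFun := S0
  map_add' x y := by
    refine lp.ext (funext fun n => ?_)
    change shf (x + y) n = shf x n + shf y n
    cases n <;> simp [shf]
  map_smul' c x := by
    refine lp.ext (funext fun n => ?_)
    change shf (c • x) n = c • shf x n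
    cases n <;> simp [shf]
  norm_map' x := by
    have h1 := (hasSum_nat_add_iff' 1).2 (n2 (S0 x))
    have h2 : HasSum (fun n => ‖x n‖ ^ 2) (‖S0 x‖ ^ 2) := by
      simpa [S0, shf] using h1
    exact (sq_eq_sq₀ (norm_nonneg _) (norm_nonneg _)).1 (h2.unique (n2 x))

lemma S_zero (x : K) : S x 0 = 0 := rfl
lemma S_succ (x : K) (n : ℕ) : S x (n + 1) = x n := rfl

lemma Sp (j : ℕ) (x : K) (n : ℕ) : (S ^ j) x n = if j ≤ n then x (n - j) else 0 := by
  induction j generalizing n with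
  | zero => simp
  | succ j ih =>
    rw [pow_succ']
    change S ((S ^ j) x) n = _
    cases n with
    | zero => rw [S_zero, if_neg (by omega)]
    | succ n => rw [S_succ, ih]; simp

noncomputable def cv (u : ℕ → ℂ) (n : ℕ) : ℂ := ∑ k ∈ range (n + 1), u k * (ph (n - k) : ℂ)

lemma cv_zero (u : ℕ → ℂ) : cv u 0 = u 0 := by simp [cv, ph]

lemma cv_succ (u : ℕ → ℂ) (h : u 0 = 0) (n : ℕ) : cv u (n + 1) = cv (fun k => u (k + 1)) n := by
  unfold cv
  rw [sum_range_succ', h]; simp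

noncomputable def G : Submodule ℂ K where
  carrier := {x | ∀ n, (x n).snd = cv (fun k => (x k).fst) n}
  add_mem' {x y} hx hy n := by
    have h1 := hx n
    have h2 := hy n
    simp only [lp.coeFn_add, Pi.add_apply, WithLp.add_snd, WithLp.add_fst, h1, h2, cv, add_mul,
      sum_add_distrib]
  zero_mem' n := by simp [cv]
  smul_mem' c x hx n := by
    have h1 := hx n
    simp only [lp.coeFn_smul, Pi.smul_apply, WithLp.smul_snd, WithLp.smul_fst, h1, cv, smul_eq_mul,
      mul_sum, mul_assoc]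

noncomputable def G0 : Submodule ℂ K := G ⊓ LinearMap.ker (lp.evalₗ (𝕜 := ℂ) (fun _ : ℕ => E) 2 0)

lemma cont_ev (n : ℕ) : Continuous fun x : K => x n :=
  (lp.evalCLM ℂ (fun _ : ℕ => E) 2 n).continuous

lemma G0_closed : IsClosed (G0 : Set K) := by
  have h1 : IsClosed (G : Set K) := by
    change IsClosed {x : K | ∀ n, (x n).snd = cv (fun k => (x k).fst) n}
    rw [Set.setOf_forall]
    refine isClosed_iInter fun n => isClosed_eq ((WithLp.continuous_snd ..).comp (cont_ev n)) ?_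
    unfold cv
    exact continuous_finsetSum _ fun k _ =>
      ((WithLp.continuous_fst ..).comp (cont_ev k)).mul continuous_const
  exact h1.inter (isClosed_eq (cont_ev 0) continuous_const)

lemma S_mem {x : K} (hx : x ∈ G) : S x ∈ G0 := by
  refine ⟨fun n => ?_, rfl⟩
  cases n with
  | zero => rw [cv_zero]; rfl
  | succ n => rw [cv_succ _ rfl]; exact hx n

lemma Sp_mem {x : K} (hx : x ∈ G) (j : ℕ) : (S ^ (j + 1)) x ∈ G0 := by
  induction j with
  | zero => simpa using S_mem hx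
  | succ j ih => rw [pow_succ']; exact S_mem ih.1

lemma mem_G0 {x : K} (hx : x ∈ G) (h : (x 0).fst = 0) : x ∈ G0 := by
  refine ⟨hx, ?_⟩
  have h2 := hx 0
  rw [cv_zero, h] at h2
  change x 0 = 0
  exact (WithLp.ext_iff _).2 (Prod.ext h h2)

lemma back {x : K} (hx : x ∈ G0) : ∃ y ∈ G, x = S y := by
  have h0 : x 0 = 0 := hx.2
  refine ⟨⟨fun n => x (n + 1), (mem2 _).2 ((summable_nat_add_iff 1).2 (n2 x).summable)⟩,
    fun n => ?_, lp.ext (funext fun n => ?_)⟩
  · have := hx.1 (n + 1)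
    rwa [cv_succ _ (by simp [h0])] at this
  · cases n with
    | zero => exact h0
    | succ n => rfl

lemma psd (u : ℕ → ℂ) (N : ℕ) : 0 ≤ ∑ n ∈ range N, (conj (u n) * cv u n).re := by
  have h1 := psd_ph N fun n => (u n).re
  have h2 := psd_ph N fun n => (u n).im
  refine (add_nonneg h1 h2).trans_eq ?_
  rw [← sum_add_distrib]
  refine sum_congr rfl fun n _ => ?_
  simp [cv, Complex.re_sum, Complex.im_sum]

lemma solve (g : ℕ → ℂ) : ∃ h : ℕ → ℂ, ∀ n, h n + cv h n = g n := by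
  let w : PowerSeries ℂ := PowerSeries.mk fun n => (ph n : ℂ)
  have hw : PowerSeries.constantCoeff (1 + w) ≠ 0 := by
    simp [w, ph]
  refine ⟨fun n => PowerSeries.coeff n (PowerSeries.mk g * (1 + w)⁻¹), fun n => ?_⟩
  have : PowerSeries.mk g * (1 + w)⁻¹ * (1 + w) = PowerSeries.mk g := by
    rw [mul_assoc, PowerSeries.inv_mul_cancel _ hw, mul_one]
  have h2 := congrArg (PowerSeries.coeff n) this
  rw [mul_add, mul_one, map_add, PowerSeries.coeff_mul _ _ w,
    Finset.Nat.sum_antidiagonal_eq_sum_range_succ_mk] at h2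
  simpa [cv, w] using h2

lemma nsq (h q : ℂ) : ‖h + q‖ ^ 2 = ‖h‖ ^ 2 + ‖q‖ ^ 2 + 2 * (conj h * q).re := by
  simp only [← Complex.normSq_eq_norm_sq, Complex.normSq_apply]; simp; ring

lemma key (g : ℕ → ℂ) (hg : Summable fun n => ‖g n‖ ^ 2) :
    ∃ x ∈ G, ∀ n, (x n).fst + (x n).snd = g n := by
  obtain ⟨h, hh⟩ := solve g
  refine ⟨⟨fun n => WithLp.toLp 2 (h n, cv h n), (mem2 _).2 ?_⟩, fun n => rfl, hh⟩
  refine summable_of_sum_range_le (c := ∑' n, ‖g n‖ ^ 2) (fun n => sq_nonneg _) fun N => ?_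
  refine le_trans ?_ (hg.sum_le_tsum (range N) fun n _ => sq_nonneg _)
  simp only [← hh, nsq, sum_add_distrib, ← mul_sum, WithLp.prod_norm_sq_eq_of_L2]
  have := psd h N
  simp only [WithLp.toLp_fst, WithLp.toLp_snd]
  linarith

lemma exists_e : ∃ e ∈ G, ‖e‖ = 1 ∧ (∃ r : ℝ, 0 < r ∧ (e 0).fst = r) ∧ e ∈ G0ᗮ := by
  haveI : CompleteSpace G0 := G0_closed.completeSpace_coe
  obtain ⟨x, hx, h⟩ := key (fun n => if n = 0 then 2 else 0)
    (summable_of_ne_finset_zero (s := {0}) fun n hn => by simp_all)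
  have h0 : (x 0).fst = 1 := by
    have h1 := h 0
    rw [hx 0, cv_zero, if_pos rfl] at h1
    linear_combination h1 / 2
  have hp := G0.starProjection_apply_mem x
  have h1 : ((x - G0.starProjection x) 0).fst = 1 := by
    have : G0.starProjection x 0 = 0 := hp.2
    simp [this, h0]
  have hne : x - G0.starProjection x ≠ 0 := by
    intro h; rw [h] at h1; simp at h1
  have hn := norm_pos_iff.2 hne
  refine ⟨((‖x - G0.starProjection x‖⁻¹ : ℝ) : ℂ) • (x - G0.starProjection x),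
    G.smul_mem _ (G.sub_mem hx hp.1), ?_, ⟨_, inv_pos.2 hn, ?_⟩,
    Submodule.smul_mem _ _ (G0.sub_starProjection_mem_orthogonal x)⟩
  · rw [norm_smul, Complex.norm_real, norm_inv, norm_norm, inv_mul_cancel₀ hn.ne']
  · rw [lp.coeFn_smul, Pi.smul_apply, WithLp.smul_fst, h1, smul_eq_mul, mul_one]

lemma ortho {e : K} (he : e ∈ G) (h1 : ‖e‖ = 1) (h2 : e ∈ G0ᗮ) :
    Orthonormal ℂ fun j : ℕ => (S ^ j) e := by
  have h : ∀ i j, i < j → inner ℂ ((S ^ j) e) ((S ^ i) e) = 0 := by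
    intro i j hij
    obtain ⟨k, rfl⟩ := Nat.exists_eq_add_of_lt hij
    rw [add_assoc, pow_add]
    change inner ℂ ((S ^ i) ((S ^ (k + 1)) e)) _ = 0
    rw [LinearIsometry.inner_map_map]
    exact h2 _ (Sp_mem he k)
  refine ⟨fun j => by rw [LinearIsometry.norm_map, h1], fun i j hij => ?_⟩
  rcases lt_or_gt_of_ne hij with h' | h'
  · exact inner_eq_zero_symm.1 (h i j h')
  · exact h j i h'

lemma iso {e : K} (he : Orthonormal ℂ fun j : ℕ => (S ^ j) e) (g : ℕ → ℂ)
    (hg : Summable fun n => ‖g n‖ ^ 2) :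
    HasSum (fun n => ‖∑ k ∈ range (n + 1), (e k).fst * g (n - k)‖ ^ 2 +
      ‖∑ k ∈ range (n + 1), (e k).snd * g (n - k)‖ ^ 2) (∑' n, ‖g n‖ ^ 2) := by
  let γ : lp (fun _ : ℕ => ℂ) 2 := ⟨g, (mem2 _).2 hg⟩
  have h1 := he.orthogonalFamily.hasSum_linearIsometry γ
  have h2 := n2 (he.orthogonalFamily.linearIsometry γ)
  rw [LinearIsometry.norm_map, ← (n2 γ).tsum_eq] at h2
  convert h2 using 2 with n
  have h3 := h1.mapL (lp.evalCLM ℂ (fun _ : ℕ => E) 2 n)
  have h4 : he.orthogonalFamily.linearIsometry γ n = ∑ k ∈ range (n + 1), g (n - k) • e k := by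
    refine h3.unique ?_
    rw [← sum_flip (M := E) (n := n) (fun k => g (n - k) • (e k : E))]
    have : HasSum (fun j => g j • (S ^ j) e n) (∑ j ∈ range (n + 1), g j • (S ^ j) e n) :=
      hasSum_sum_of_ne_finset_zero fun j hj => by rw [Sp, if_neg (by simpa using hj), smul_zero]
    have e2 : ∑ j ∈ range (n + 1), g j • (S ^ j) e n =
        ∑ r ∈ range (n + 1), g (n - (n - r)) • e (n - r) := by
      refine sum_congr rfl fun j hj => ?_
      have := mem_range.1 hj
      rw [Sp, if_pos (by omega), Nat.sub_sub_self (by omega)]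
    exact e2 ▸ this
  rw [h4, WithLp.prod_norm_sq_eq_of_L2]
  congr 3
  · rw [show ∀ z : E, z.fst = WithLp.fstₗ 2 ℂ ℂ ℂ z from fun _ => rfl, map_sum]
    simp [mul_comm]
  · rw [show ∀ z : E, z.snd = WithLp.sndₗ 2 ℂ ℂ ℂ z from fun _ => rfl, map_sum]
    simp [mul_comm]

lemma wold {e : K} (he : e ∈ G) (h0 : (e 0).fst ≠ 0) (h2 : e ∈ G0ᗮ) (y : K)
    (hy : ∀ j : ℕ, inner ℂ y ((S ^ j) e) = 0) {x : K} (hx : x ∈ G) : inner ℂ y x = 0 := by
  have h : ∀ n : ℕ, ∃ z ∈ G, ‖z‖ ≤ ‖x‖ ∧ inner ℂ y x = inner ℂ y ((S ^ n) z) := by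
    intro n
    induction n with
    | zero => exact ⟨x, hx, le_rfl, by simp⟩
    | succ n ih =>
      obtain ⟨z, hz, h3, h4⟩ := ih
      obtain ⟨c, hc⟩ : ∃ c : ℂ, c = (z 0).fst / (e 0).fst := ⟨_, rfl⟩
      have hm : z - c • e ∈ G0 := mem_G0 (G.sub_mem hz (G.smul_mem _ he)) (by
        simp [hc, h0])
      obtain ⟨w, hw, h5⟩ := back hm
      have h6 : z = S w + c • e := by rw [← h5]; abel
      refine ⟨w, hw, le_trans ?_ h3, ?_⟩
      · have := norm_add_sq_eq_norm_sq_add_norm_sq_of_inner_eq_zero (𝕜 := ℂ) (S w) (c • e)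
          (by rw [inner_smul_right, h2 _ (S_mem hw), mul_zero])
        rw [← h6, S.norm_map] at this
        exact abs_le_abs (by nlinarith [norm_nonneg w, norm_nonneg z, norm_nonneg (c • e)])
          (by linarith [norm_nonneg w, norm_nonneg z]) |>.trans' (le_abs_self _) |>.trans
          (abs_of_nonneg (norm_nonneg z)).le
      · rw [h4, h6, map_add, map_smul, inner_add_right, inner_smul_right, hy, mul_zero, add_zero,
          pow_succ]
        rfl
  have ht : Tendsto (fun n => ‖y - ∑ i ∈ range n, lp.single 2 i (y i)‖ * ‖x‖) atTop (𝓝 0) := by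
    have := (lp.hasSum_single (p := 2) (by norm_num) y).tendsto_sum_nat
    simpa using ((tendsto_const_nhds (x := y)).sub this).norm.mul_const ‖x‖
  refine norm_le_zero_iff.1 (ge_of_tendsto' ht fun n => ?_)
  obtain ⟨z, _, h3, h4⟩ := h n
  have h5 : inner ℂ y ((S ^ n) z) = inner ℂ (y - ∑ i ∈ range n, lp.single 2 i (y i)) ((S ^ n) z) := by
    rw [inner_sub_left, sum_inner, sum_eq_zero, sub_zero]
    intro i hi
    rw [lp.inner_single_left, Sp, if_neg (by simpa using hi), inner_zero_right]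
  rw [h4, h5]
  refine (norm_inner_le_norm _ _).trans ?_
  rw [LinearIsometry.norm_map]
  gcongr

lemma inner_Sp (y e : K) (j : ℕ) :
    HasSum (fun n => inner ℂ (y (n + j)) (e n)) (inner ℂ y ((S ^ j) e)) := by
  have h := (hasSum_nat_add_iff' j).2 (lp.hasSum_inner (𝕜 := ℂ) y ((S ^ j) e))
  rw [sum_eq_zero fun i hi => by rw [Sp, if_neg (by simpa using hi), inner_zero_right],
    sub_zero] at h
  simpa [Sp] using h

lemma fin0 (F T : ℕ → ℝ) (h : HasSum (fun n => F n ^ 2 + T n) 0)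
    (hT : ∀ N, 0 ≤ ∑ n ∈ range N, T n) (m : ℕ) : F m = 0 := by
  have : F m ^ 2 ≤ 0 := by
    refine ge_of_tendsto h.tendsto_sum_nat (eventually_atTop.2 ⟨m + 1, fun N hN => ?_⟩)
    rw [sum_add_distrib]
    have := single_le_sum (f := fun n => F n ^ 2) (s := range N) (fun _ _ => sq_nonneg _)
      (mem_range.2 hN)
    linarith [hT N]
  exact pow_eq_zero_iff (two_ne_zero) |>.1 (le_antisymm this (sq_nonneg _))

lemma sq_add (f β : ℕ → ℂ) (hf : Summable fun n => ‖f n‖ ^ 2) (hβ : Summable fun n => ‖β n‖ ^ 2) :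
    Summable fun n => ‖f n + β n‖ ^ 2 :=
  (mem2 _).1 (((mem2 _).2 hf).add ((mem2 _).2 hβ))

theorem main : ∃ a b : ℕ → ℂ,
    (∀ g : ℕ → ℂ, Summable (fun n => ‖g n‖ ^ 2) →
      Summable (fun n => ‖∑ k ∈ Finset.range (n+1), a k * g (n-k)‖ ^ 2) ∧
      Summable (fun n => ‖∑ k ∈ Finset.range (n+1), b k * g (n-k)‖ ^ 2) ∧
      (∑' n, ‖∑ k ∈ Finset.range (n+1), a k * g (n-k)‖ ^ 2) +
        (∑' n, ‖∑ k ∈ Finset.range (n+1), b k * g (n-k)‖ ^ 2) = ∑' n, ‖g n‖ ^ 2) ∧
    (∀ g : ℕ → ℂ, Summable (fun n => ‖g n‖ ^ 2) →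
      (∀ j : ℕ, ∑' n, a n * starRingEnd ℂ (g (n + j)) = 0) → g = 0) ∧
    0 < (a 0).re ∧ (a 0).im = 0 ∧
    (∀ n, ∑ k ∈ Finset.range (n+1), a k * (ph (n-k) : ℂ) = b n) ∧
    ∀ f : ℕ → ℂ, Summable (fun n => ‖f n‖ ^ 2) →
      (∀ g : ℕ → ℂ, Summable (fun n => ‖g n‖ ^ 2) →
        (∑' n, ‖f n + ∑ k ∈ Finset.range (n+1), b k * g (n-k)‖ ^ 2) - ∑' n, ‖g n‖ ^ 2 ≤
          ∑' n, ‖f n‖ ^ 2) → f 0 = 0 := by
  obtain ⟨e, he, h1, ⟨r, hr, h0⟩, h2⟩ := exists_e
  have ho := ortho he h1 h2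
  have h0' : (e 0).fst ≠ 0 := by rw [h0]; exact_mod_cast hr.ne'
  have I : ∀ g : ℕ → ℂ, Summable (fun n => ‖g n‖ ^ 2) →
      Summable (fun n => ‖∑ k ∈ Finset.range (n+1), (e k).fst * g (n-k)‖ ^ 2) ∧
      Summable (fun n => ‖∑ k ∈ Finset.range (n+1), (e k).snd * g (n-k)‖ ^ 2) ∧
      (∑' n, ‖∑ k ∈ Finset.range (n+1), (e k).fst * g (n-k)‖ ^ 2) +
        (∑' n, ‖∑ k ∈ Finset.range (n+1), (e k).snd * g (n-k)‖ ^ 2) = ∑' n, ‖g n‖ ^ 2 := by
    intro g hg
    have h := iso ho g hg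
    have s1 := h.summable.of_nonneg_of_le (fun n => sq_nonneg _)
      (fun n => le_add_of_nonneg_right (sq_nonneg _))
    have s2 := h.summable.of_nonneg_of_le (fun n => sq_nonneg _)
      (fun n => le_add_of_nonneg_left (sq_nonneg _))
    exact ⟨s1, s2, by rw [← s1.tsum_add s2, h.tsum_eq]⟩
  refine ⟨fun n => (e n).fst, fun n => (e n).snd, I, fun g hg hj => ?_, by simp [h0, hr],
    by simp [h0], fun n => (he n).symm, fun f hf hb => ?_⟩
  · let y : K := ⟨fun n => WithLp.toLp 2 (g n, 0), (mem2 _).2 (by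
      simpa [WithLp.prod_norm_sq_eq_of_L2] using hg)⟩
    obtain ⟨x, hx, hs⟩ := key g hg
    have h3 := wold he h0' h2 y (fun j => by
      rw [← (inner_Sp y e j).tsum_eq, ← hj j]
      simp [y]) hx
    have h4 := Complex.hasSum_re (lp.hasSum_inner (𝕜 := ℂ) y x)
    rw [h3, Complex.zero_re] at h4
    have h5 : ∀ m, ‖(x m).fst‖ = 0 := fin0 _ (fun n => (conj (x n).fst * cv (fun k => (x k).fst) n).re)
      (by
        convert h4 using 2 with n
        rw [← hx n]
        simp [y, ← hs n, ← Complex.normSq_eq_norm_sq, Complex.normSq_apply]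
        ring) (psd _)
    funext n
    simp only [norm_eq_zero] at h5
    simp [← hs n, hx n, cv, h5]
  · let y : K := ⟨fun n => WithLp.toLp 2 (0, f n), (mem2 _).2 (by
      simpa [WithLp.prod_norm_sq_eq_of_L2] using hf)⟩
    obtain ⟨x, hx, hs⟩ := key f hf
    have h3 := wold he h0' h2 y (fun j => by
      obtain ⟨w, hw⟩ : ∃ w, w = inner ℂ y ((S ^ j) e) := ⟨_, rfl⟩
      have hg : HasSum (fun n => ‖if n = j then conj w else 0‖ ^ 2) (‖w‖ ^ 2) := by
        convert hasSum_ite_eq j (‖w‖ ^ 2) using 2 with n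
        split_ifs <;> simp
      have h6 := hb _ hg.summable
      have h7 := (I _ hg.summable).2.1
      have h8 : ∀ n, ∑ k ∈ range (n + 1), (e k).snd * (if n - k = j then conj w else 0) =
          conj w * ((S ^ j) e n).snd := by
        intro n
        rw [Sp]
        split_ifs with h
        · rw [sum_eq_single (n - j) (fun k hk h' => by
            rw [if_neg (by have := mem_range.1 hk; omega), mul_zero]) (by simp),
            if_pos (by omega), mul_comm]
        · rw [sum_eq_zero fun k _ => by rw [if_neg (by omega), mul_zero]]; simp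
      simp only [h8] at h6 h7
      have h9 := Complex.hasSum_re ((lp.hasSum_inner (𝕜 := ℂ) y ((S ^ j) e)).mul_left (conj w))
      have h10 := hasSum_le (fun n => ?_) (hf.hasSum.add (h9.mul_left 2)) (sq_add _ _ hf h7).hasSum
      · rw [← hw, Complex.conj_mul', hg.tsum_eq] at *
        have : (((‖w‖ : ℂ)) ^ 2).re = ‖w‖ ^ 2 := by norm_cast
        exact norm_eq_zero.1 (by nlinarith [norm_nonneg w])
      · rw [nsq]
        have : conj w * inner ℂ (y n) ((S ^ j) e n) = conj (f n) * (conj w * ((S ^ j) e n).snd) := by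
          simp [y]; ring
        rw [this]
        linarith [sq_nonneg ‖conj w * ((S ^ j) e n).snd‖]) hx
    have h4 := Complex.hasSum_re (lp.hasSum_inner (𝕜 := ℂ) y x)
    rw [h3, Complex.zero_re] at h4
    have h5 : ‖(x 0).snd‖ = 0 := fin0 (fun n => ‖(x n).snd‖)
      (fun n => (conj (x n).fst * cv (fun k => (x k).fst) n).re)
      (by
        convert h4 using 2 with n
        rw [← hx n]
        simp [y, ← hs n, ← Complex.normSq_eq_norm_sq, Complex.normSq_apply]
        ring) (psd _) 0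
    have h6 := hx 0
    rw [cv_zero] at h6
    rw [← hs 0, ← h6, norm_eq_zero.1 h5, add_zero]

end Pool.Agent.H.MP_05b6ce_an
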