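import Mathlib

set_option autoImplicit false
open Filter Topology Finset

namespace Pool.Agent.H.MP_05b6ce_an

noncomputable def tm (i : ℕ) (s : ℤ) : ℝ := (1 / 2) ^ (i + 1) * if (2 : ℤ) ^ i ∣ s then 1 else 0

noncomputable def rho (s : ℤ) : ℝ := ∑' i : ℕ, tm i s

lemma geo : HasSum (fun i : ℕ => (1 / 2 : ℝ) ^ (i + 1)) 1 := by
  have := hasSum_geometric_two.mul_right (1 / 2)
  simp only [← pow_succ] at this
  norm_num at this ⊢
  exact this

lemma tm_bd (i : ℕ) (s : ℤ) : 0 ≤ tm i s ∧ tm i s ≤ (1 / 2 : ℝ) ^ (i + 1) := by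
  unfold tm; split_ifs <;> simp

lemma tm_sum (s : ℤ) : Summable fun i => tm i s :=
  Summable.of_nonneg_of_le (fun i => (tm_bd i s).1) (fun i => (tm_bd i s).2) geo.summable

lemma rho_bd (s : ℤ) : 0 ≤ rho s ∧ rho s ≤ 1 :=
  ⟨tsum_nonneg fun i => (tm_bd i s).1,
    geo.tsum_eq ▸ (tm_sum s).tsum_le_tsum (fun i => (tm_bd i s).2) geo.summable⟩

lemma rho_zero : rho 0 = 1 := by
  unfold rho tm; simpa using geo.tsum_eq

lemma rho_neg (s : ℤ) : rho (-s) = rho s := by unfold rho tm; simp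

noncomputable def ph (n : ℕ) : ℝ := if n = 0 then 1 else 2 * rho n

lemma ph_bd (n : ℕ) : |ph n| ≤ 2 := by
  unfold ph
  have := rho_bd n
  split_ifs
  · norm_num
  · rw [abs_le]; constructor <;> linarith [this.1, this.2]

lemma psd_one (q N : ℕ) (u : ℕ → ℝ) :
    0 ≤ ∑ n ∈ range N, ∑ k ∈ range N, (if (q : ℤ) ∣ (n : ℤ) - k then 1 else 0) * (u n * u k) := by
  have e : ∀ n ∈ range N, ∀ k ∈ range N, (if (q : ℤ) ∣ (n : ℤ) - k then (1 : ℝ) else 0) *
      (u n * u k) = ∑ r ∈ range N, (if n % q = r then u n else 0) * (if k % q = r then u k else 0) := by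
    intro n hn k _
    have h1 : n % q ∈ range N := mem_range.2 ((Nat.mod_le _ _).trans_lt (mem_range.1 hn))
    rw [sum_eq_single_of_mem (n % q) h1 (fun r _ hr => by rw [if_neg (Ne.symm hr), zero_mul])]
    have h2 : (q : ℤ) ∣ (n : ℤ) - k ↔ k % q = n % q := (Nat.modEq_iff_dvd).symm
    by_cases h : k % q = n % q
    · rw [if_pos (h2.2 h), if_pos rfl, if_pos h, one_mul]
    · rw [if_neg (fun h' => h (h2.1 h')), if_neg h]; simp
  rw [sum_congr rfl fun n hn => sum_congr rfl (e n hn)]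
  rw [sum_congr rfl fun n _ => sum_comm, sum_comm]
  refine sum_nonneg fun r _ => ?_
  rw [← sum_mul_sum]
  exact mul_self_nonneg _

lemma psd_rho (N : ℕ) (u : ℕ → ℝ) :
    0 ≤ ∑ n ∈ range N, ∑ k ∈ range N, rho ((n : ℤ) - k) * (u n * u k) := by
  have h : HasSum (fun i => ∑ n ∈ range N, ∑ k ∈ range N, tm i ((n : ℤ) - k) * (u n * u k))
      (∑ n ∈ range N, ∑ k ∈ range N, rho ((n : ℤ) - k) * (u n * u k)) :=
    hasSum_sum fun n _ => hasSum_sum fun k _ => (tm_sum _).hasSum.mul_right _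
  refine h.nonneg fun i => ?_
  have := psd_one (2 ^ i) N u
  simp only [tm, mul_assoc, ← mul_sum]
  push_cast at this
  positivity

lemma psd_ph (N : ℕ) (u : ℕ → ℝ) :
    0 ≤ ∑ n ∈ range N, u n * ∑ k ∈ range (n + 1), u k * ph (n - k) := by
  suffices h : ∑ n ∈ range N, u n * ∑ k ∈ range (n + 1), u k * ph (n - k) =
      ∑ n ∈ range N, ∑ k ∈ range N, rho ((n : ℤ) - k) * (u n * u k) from h ▸ psd_rho N u
  induction N with
  | zero => simp
  | succ N ih =>
    rw [sum_range_succ, ih, sum_range_succ (fun n => ∑ k ∈ range (N + 1),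
      rho ((n : ℤ) - k) * (u n * u k))]
    simp only [sum_range_succ _ N, sum_add_distrib, sub_self, rho_zero]
    have e1 : ∑ k ∈ range N, u k * ph (N - k) = ∑ k ∈ range N, 2 * (rho ((N : ℤ) - k) * u k) := by
      refine sum_congr rfl fun k hk => ?_
      have := mem_range.1 hk
      unfold ph
      rw [if_neg (by omega), Nat.cast_sub this.le]; ring
    have e2 : ∑ n ∈ range N, rho ((n : ℤ) - N) * (u n * u N) =
        ∑ k ∈ range N, rho ((N : ℤ) - k) * (u N * u k) := by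
      refine sum_congr rfl fun k _ => ?_
      rw [← rho_neg, neg_sub]; ring
    have e3 : u N * ∑ k ∈ range N, 2 * (rho ((N : ℤ) - k) * u k) =
        2 * ∑ k ∈ range N, rho ((N : ℤ) - k) * (u N * u k) := by
      rw [mul_sum, mul_sum]; exact sum_congr rfl fun k _ => by ring
    rw [e1, e2, mul_add, e3, Nat.sub_self]
    simp only [ph, if_true]
    ring

lemma rho_win (j : ℕ) (u v s : ℤ) (h0 : 0 < s) (h1 : s < 2 ^ j) :
    rho (2 ^ j * u + s) = rho (2 ^ j * v + s) := by
  have key : ∀ (i : ℕ) (u v : ℤ), (2 : ℤ) ^ i ∣ 2 ^ j * u + s → (2 : ℤ) ^ i ∣ 2 ^ j * v + s := by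
    intro i u v h
    rcases le_total i j with hij | hij
    · have h2 : (2 : ℤ) ^ i ∣ 2 ^ j := pow_dvd_pow 2 hij
      exact dvd_add (h2.mul_right v) ((dvd_add_right (h2.mul_right u)).1 h)
    · have h2 : (2 : ℤ) ^ j ∣ s :=
        (dvd_add_right (dvd_mul_right _ u)).1 ((pow_dvd_pow 2 hij).trans h)
      exact absurd (Int.le_of_dvd h0 h2) (by omega)
  unfold rho tm
  congr 1; funext i
  rw [if_congr ⟨key i u v, key i v u⟩ rfl rfl]

lemma rho_jump (j : ℕ) (t : ℤ) :
    rho (2 ^ j * (4 * t + 2)) - rho (2 ^ j * (4 * t + 1)) = (1 / 2) ^ (j + 2) := by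
  unfold rho
  rw [← (tm_sum _).tsum_sub (tm_sum _), tsum_eq_single (j + 1)]
  · unfold tm
    rw [if_pos ⟨2 * t + 1, by ring⟩, if_neg]
    · simp
    · rw [pow_succ, mul_dvd_mul_iff_left (by positivity)]; omega
  · intro i hi
    unfold tm
    rcases le_or_gt i j with h | h
    · rw [if_pos ((pow_dvd_pow 2 h).mul_right _), if_pos ((pow_dvd_pow 2 h).mul_right _), sub_self]
    · have h2 : (2 : ℤ) ^ j * 4 ∣ 2 ^ i := by
        rw [show (2 : ℤ) ^ j * 4 = 2 ^ (j + 2) by ring]; exact pow_dvd_pow 2 (by omega)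
      rw [if_neg, if_neg, sub_self]
      · intro h3
        have := h2.trans h3
        rw [mul_dvd_mul_iff_left (by positivity)] at this; omega
      · intro h3
        have := h2.trans h3
        rw [mul_dvd_mul_iff_left (by positivity)] at this; omega

noncomputable def Ph (n m : ℕ) : ℝ := if m ≤ n then ph (n - m) else 0

noncomputable def P (g : ℕ → ℝ) (m N : ℕ) : ℝ := ∑ n ∈ range N, Ph n m * g n

lemma P_congr {g g' : ℕ → ℝ} {N : ℕ} (h : ∀ n < N, g' n = g n) (m : ℕ) : P g' m N = P g m N :=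
  sum_congr rfl fun n hn => by rw [h n (mem_range.1 hn)]

lemma sum_stable (F : ℕ → ℝ) {D N : ℕ} (h : ∀ n, D ≤ n → F n = 0) (hN : D ≤ N) :
    ∑ n ∈ range N, F n = ∑ n ∈ range D, F n :=
  (sum_subset (range_mono hN) fun n _ hn => h n (by simpa using hn)).symm

lemma P_stable {g : ℕ → ℝ} {D N : ℕ} (h : ∀ n, D ≤ n → g n = 0) (hN : D ≤ N) (m : ℕ) :
    P g m N = P g m D := sum_stable _ (fun n hn => by rw [h n hn, mul_zero]) hN

def Ext (j : ℕ) (g : ℕ → ℝ) (D : ℕ) (g' : ℕ → ℝ) (D' : ℕ) (η c μ : ℝ) : Prop :=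
  D ≤ D' ∧ (∀ n, D' ≤ n → g' n = 0) ∧ (∀ n < D, g' n = g n) ∧
    (∀ m < j, ∀ N, D ≤ N → |P g' m N - P g m D| ≤ η) ∧ (∀ m < j, P g' m D' = P g m D) ∧
    P g' j D' = P g j D + c ∧ ∑ n ∈ range D', g' n ^ 2 = ∑ n ∈ range D, g n ^ 2 + μ

lemma piece (j : ℕ) (g : ℕ → ℝ) (D : ℕ) (hg : ∀ n, D ≤ n → g n = 0) (β : ℝ) :
    ∃ g' D', D < D' ∧ Ext j g D g' D' (2 * |β|) (β * (1 / 2) ^ (j + 1)) (2 * β ^ 2) := by
  obtain ⟨p, hp⟩ : ∃ p, p = 2 ^ j * (4 * D + 1) := ⟨_, rfl⟩
  obtain ⟨q, hq⟩ : ∃ q, q = 2 ^ j * (4 * D + 2) := ⟨_, rfl⟩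
  have h2 : j < 2 ^ j := Nat.lt_two_pow_self
  have hpD : D < p := by rw [hp]; nlinarith
  have hpq : p < q := by rw [hp, hq]; nlinarith
  obtain ⟨g', hg'⟩ : ∃ g' : ℕ → ℝ, g' = fun n =>
    g n + β * ((if n = q + j then 1 else 0) - (if n = p + j then 1 else 0)) := ⟨_, rfl⟩
  have hP : ∀ m N, D ≤ N → P g' m N = P g m D + β * ((if q + j < N then Ph (q + j) m else 0) -
      (if p + j < N then Ph (p + j) m else 0)) := by
    intro m N hN
    rw [← P_stable hg hN m, hg']
    unfold P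
    simp only [mul_add, sum_add_distrib, mul_sub, sum_sub_distrib, mul_ite, mul_one, mul_zero,
      sum_ite_eq', mem_range]
    split_ifs <;> ring
  have hw : ∀ m < j, Ph (q + j) m = Ph (p + j) m := by
    intro m hm
    unfold Ph
    rw [if_pos (show m ≤ q + j by omega), if_pos (show m ≤ p + j by omega)]
    unfold ph
    rw [if_neg (show ¬ q + j - m = 0 by omega), if_neg (show ¬ p + j - m = 0 by omega)]
    have e1 : ((q + j - m : ℕ) : ℤ) = 2 ^ j * (4 * D + 2) + ((j : ℤ) - m) := by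
      rw [Nat.cast_sub (by omega), hq]; push_cast; ring
    have e2 : ((p + j - m : ℕ) : ℤ) = 2 ^ j * (4 * D + 1) + ((j : ℤ) - m) := by
      rw [Nat.cast_sub (by omega), hp]; push_cast; ring
    have h3 : (j : ℤ) < 2 ^ j := by exact_mod_cast h2
    rw [e1, e2, rho_win j _ (4 * D + 1) _ (by omega) (by omega)]
  refine ⟨g', q + j + 1, by omega, by omega, fun n hn => ?_, fun n hn => ?_, fun m hm N hN => ?_,
    fun m hm => ?_, ?_, ?_⟩
  · rw [hg']; simp only
    rw [hg n (by omega), if_neg (by omega), if_neg (by omega)]; simp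
  · rw [hg']; simp only
    rw [if_neg (by omega), if_neg (by omega)]; simp
  · rw [hP m N hN, hw m hm, add_sub_cancel_left, abs_mul, mul_comm]
    gcongr
    have : |Ph (p + j) m| ≤ 2 := by
      unfold Ph; rw [if_pos (by omega)]; exact ph_bd _
    split_ifs <;> simp [this]
  · rw [hP m _ (by omega), if_pos (by omega), if_pos (by omega), hw m hm]; simp
  · rw [hP j _ (by omega), if_pos (by omega), if_pos (by omega)]
    congr 2
    unfold Ph
    rw [if_pos (show j ≤ q + j by omega), if_pos (show j ≤ p + j by omega),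
      Nat.add_sub_cancel, Nat.add_sub_cancel]
    unfold ph
    rw [if_neg (show ¬ q = 0 by omega), if_neg (show ¬ p = 0 by omega), hp, hq, ← mul_sub]
    have := rho_jump j D
    push_cast
    rw [this]; ring
  · have e : ∀ n, g' n ^ 2 = g n ^ 2 + β ^ 2 * ((if n = q + j then 1 else 0) +
        (if n = p + j then 1 else 0)) := by
      intro n
      rw [hg']; simp only
      by_cases h1 : n = q + j
      · rw [if_pos h1, if_neg (by omega), hg n (by omega)]; ring
      · by_cases h3 : n = p + j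
        · rw [if_neg h1, if_pos h3, hg n (by omega)]; ring
        · rw [if_neg h1, if_neg h3]; ring
    simp only [e, sum_add_distrib, ← mul_sum, sum_ite_eq', mem_range]
    rw [if_pos (by omega), if_pos (by omega),
      sum_stable (fun n => g n ^ 2) (D := D) (fun n hn => by rw [hg n hn]; simp) (by omega)]
    ring

lemma block (j : ℕ) (g : ℕ → ℝ) (D : ℕ) (hg : ∀ n, D ≤ n → g n = 0) (β : ℝ) (M : ℕ) :
    ∃ g' D', D < D' ∧
      Ext j g D g' D' (2 * |β|) ((M + 1) * (β * (1 / 2) ^ (j + 1))) ((M + 1) * (2 * β ^ 2)) := by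
  induction M with
  | zero => simpa using piece j g D hg β
  | succ M ih =>
    obtain ⟨g1, D1, h0, a1, a2, a3, a4, a5, a6, a7⟩ := ih
    obtain ⟨g2, D2, k0, b1, b2, b3, b4, b5, b6, b7⟩ := piece j g1 D1 a2 β
    refine ⟨g2, D2, by omega, by omega, b2, fun n hn => by rw [b3 n (by omega), a3 n hn],
      fun m hm N hN => ?_, fun m hm => by rw [b5 m hm, a5 m hm], ?_, ?_⟩
    · rcases le_total N D1 with h | h
      · rw [P_congr (g := g1) (fun n hn => b3 n (by omega))]; exact a4 m hm N hN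
      · rw [← a5 m hm]; exact b4 m hm N h
    · rw [b6, a6]; push_cast; ring
    · rw [b7, a7]; push_cast; ring

lemma stage (j : ℕ) (g : ℕ → ℝ) (D : ℕ) (ε : ℝ) (hε : 0 < ε) :
    ∃ s : (ℕ → ℝ) × ℕ, (∀ n, D ≤ n → g n = 0) → D < s.2 ∧ ∃ η ≤ ε, ∃ μ ≤ ε,
      Ext j g D s.1 s.2 η (-P g j D) μ := by
  by_cases hg : ∀ n, D ≤ n → g n = 0
  swap
  · exact ⟨(g, D), fun h => absurd h hg⟩
  obtain ⟨c, hc⟩ : ∃ c, c = -P g j D * 2 ^ (j + 1) := ⟨_, rfl⟩
  obtain ⟨M, hM⟩ := exists_nat_ge ((2 * |c| + 2 * c ^ 2) / ε)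
  rw [div_le_iff₀ hε] at hM
  have M0 : (0 : ℝ) < M + 1 := by positivity
  obtain ⟨g', D', h0, h⟩ := block j g D hg (c / (M + 1)) M
  refine ⟨(g', D'), fun _ => ⟨h0, 2 * |c / (M + 1)|, ?_, (M + 1) * (2 * (c / (M + 1)) ^ 2), ?_, ?_⟩⟩
  rotate_left 2
  · convert h using 1
    rw [hc]; field_simp; simp
  · rw [abs_div, abs_of_pos M0, ← mul_div_assoc, div_le_iff₀ M0]
    nlinarith [sq_nonneg c]
  · rw [show ((M : ℝ) + 1) * (2 * (c / (M + 1)) ^ 2) = 2 * c ^ 2 / (M + 1) by field_simp,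
      div_le_iff₀ M0]
    nlinarith [abs_nonneg c]

theorem exists_f : ∃ f : ℕ → ℝ, f 0 = 1 ∧ Summable (fun n => f n ^ 2) ∧
    ∀ m, Tendsto (fun N => ∑ n ∈ range N, ph n * f (m + n)) atTop (𝓝 0) := by
  choose nx hnx using fun (j : ℕ) (s : (ℕ → ℝ) × ℕ) =>
    stage j s.1 s.2 ((1 / 2) ^ (j + 1)) (by positivity)
  let st : ℕ → (ℕ → ℝ) × ℕ := fun j =>
    Nat.rec (fun n => if n = 0 then 1 else 0, 1) (fun j s => nx j s) j
  have hs : ∀ j, ∀ n, (st j).2 ≤ n → (st j).1 n = 0 := by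
    intro j
    induction j with
    | zero => intro n hn; exact if_neg (by change 1 ≤ n at hn; omega)
    | succ j ih => exact (hnx j (st j) ih).2.choose_spec.2.choose_spec.2.2.1
  have H : ∀ j, (st j).2 < (st (j + 1)).2 ∧ ∃ η ≤ (1 / 2 : ℝ) ^ (j + 1), ∃ μ ≤ (1 / 2 : ℝ) ^ (j + 1),
      Ext j (st j).1 (st j).2 (st (j + 1)).1 (st (j + 1)).2 η (-P (st j).1 j (st j).2) μ :=
    fun j => hnx j (st j) (hs j)
  have mono : StrictMono fun j => (st j).2 := strictMono_nat_of_lt_succ fun j => (H j).1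
  have hD : ∀ j, j < (st j).2 := by
    intro j
    induction j with
    | zero => exact Nat.one_pos
    | succ j ih => have := (H j).1; omega
  have agree : ∀ j k, j ≤ k → ∀ n < (st j).2, (st k).1 n = (st j).1 n := by
    intro j k hjk n hn
    induction k, hjk using Nat.le_induction with
    | base => rfl
    | succ k hk ih =>
      obtain ⟨_, _, _, _, _, h⟩ := H k
      rw [h.2.2.1 n (hn.trans_le (mono.monotone hk)), ih]
  have hf : ∀ j, ∀ n < (st j).2, (st n).1 n = (st j).1 n := by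
    intro j n hn
    rcases le_total j n with h | h
    · exact agree j n h n hn
    · exact (agree n j h n (hD n)).symm
  have zero : ∀ j, ∀ m < j, P (st j).1 m (st j).2 = 0 := by
    intro j
    induction j with
    | zero => intro m hm; omega
    | succ j ih =>
      intro m hm
      obtain ⟨_, _, _, _, _, h⟩ := H j
      rcases (Nat.lt_succ_iff.1 hm).eq_or_lt with rfl | h'
      · rw [h.2.2.2.2.2.1]; ring
      · rw [h.2.2.2.2.1 m h', ih m h']
  have mass : ∀ j, ∑ n ∈ range (st j).2, (st j).1 n ^ 2 ≤ 2 - (1 / 2) ^ j := by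
    intro j
    induction j with
    | zero => change ∑ n ∈ range 1, (if n = 0 then (1 : ℝ) else 0) ^ 2 ≤ _; norm_num
    | succ j ih =>
      obtain ⟨_, _, _, μ, hμ, h⟩ := H j
      rw [h.2.2.2.2.2.2, pow_succ] at *
      linarith
  refine ⟨fun n => (st n).1 n, by change (if 0 = 0 then (1 : ℝ) else 0) = 1; simp, ?_, fun m => ?_⟩
  · refine summable_of_sum_range_le (c := 2) (fun n => sq_nonneg _) fun N => ?_
    have h1 : ∑ n ∈ range N, (st n).1 n ^ 2 ≤ ∑ n ∈ range (st N).2, (st N).1 n ^ 2 := by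
      rw [sum_congr rfl fun n hn => by rw [hf N n ((mem_range.1 hn).trans (hD N))]]
      exact sum_le_sum_of_subset_of_nonneg (range_mono (hD N).le) fun _ _ _ => sq_nonneg _
    have h2 := mass N
    have h3 : (0 : ℝ) < (1 / 2) ^ N := by positivity
    linarith
  · have e : ∀ N, ∑ n ∈ range N, ph n * (st (m + n)).1 (m + n) =
        P (fun n => (st n).1 n) m (m + N) := by
      intro N
      unfold P
      rw [sum_range_add, sum_eq_zero (s := range m) fun n hn => by
        unfold Ph; rw [if_neg (by simpa using hn), zero_mul], zero_add]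
      refine sum_congr rfl fun n _ => ?_
      unfold Ph; rw [if_pos (by omega), Nat.add_sub_cancel_left]
    simp only [e]
    have bd : ∀ j, m < j → ∀ k, j ≤ k → ∀ N, (st j).2 ≤ N → N ≤ (st k).2 →
        |P (st k).1 m N| ≤ (1 / 2) ^ j := by
      intro j hj k hk
      induction k, hk using Nat.le_induction with
      | base =>
        intro N h1 h2
        rw [le_antisymm h2 h1, zero j m hj]; simp
      | succ k hk ih =>
        intro N h1 _
        obtain ⟨_, η, hη, _, _, h⟩ := H k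
        rcases le_total N (st k).2 with h3 | h3
        · rw [P_congr (g := (st k).1) (fun n hn => h.2.2.1 n (by omega))]; exact ih N h1 h3
        · have := h.2.2.2.1 m (by omega) N h3
          rw [zero k m (by omega), sub_zero] at this
          exact (this.trans hη).trans (pow_le_pow_of_le_one (by norm_num) (by norm_num) (by omega))
    rw [Metric.tendsto_atTop]
    intro ε hε
    obtain ⟨j, hj⟩ := exists_pow_lt_of_lt_one hε (show (1 / 2 : ℝ) < 1 by norm_num)
    refine ⟨(st (j + m + 1)).2, fun N hN => ?_⟩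
    rw [Real.dist_eq, sub_zero]
    have h1 := hD (j + m + 1 + (m + N))
    rw [P_congr (g := (st (j + m + 1 + (m + N))).1) (fun n hn => hf _ n (by omega))]
    refine (bd (j + m + 1) (by omega) _ (by omega) _ (by omega) (by omega)).trans_lt ?_
    exact (pow_le_pow_of_le_one (by norm_num) (by norm_num) (by omega)).trans_lt hj

end Pool.Agent.H.MP_05b6ce_an
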